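import Pool.Agent.U620.TG.D

/-!
# Tangled labelings and minimal elements

Let `P` be a poset with `n ≥ 2` elements and `s` minimal elements. Let `Pairs P` be the set of the pairs `(y, x)`
such that, for some `z ≤ x`, `y` is the only element strictly below `z`. We prove that `P` has at most
`(n - s) (n - 2)!` tangled labelings, the conjectured bound, if there are at most `n - s` such pairs; this is
the case if every `x` is in at most one pair (`Unshared P`). The poset need not be connected.

This follows from the bound `(n - 2)!` times the number of these pairs for all posets
(`Pool.Agent.U620.TG.bound`, also in MP_ac744f_co.PairBound).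
-/

set_option autoImplicit false

namespace Pool.Agent.Results.MP_21b3ca_co.FewPairs

open Pool.Agent.W5h8.Tang Pool.Agent.U620.TG

/-- A finite poset with `n` elements and `s` minimal elements has at most `(n - s) (n - 2)!` tangled labelings
if there are at most `n - s` pairs in `Pairs P`, in particular if `Unshared P` holds. -/
theorem result (P : Type) [PartialOrder P] [Fintype P]
    (h : {p : P × P | ∃ z, z ≤ p.2 ∧ ∀ u, u < z ↔ u = p.1}.ncard ≤
      Fintype.card P - {x : P | IsMin x}.ncard ∨ Unshared P) :
    {L : P → ℕ | Tangled L}.ncard ≤
      (Fintype.card P - {x : P | IsMin x}.ncard) * (Fintype.card P - 2).factorial := by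
  have h3 : (Pairs P).ncard ≤ Fintype.card P - {x : P | IsMin x}.ncard := by
    rcases h with h | h
    · exact h
    · exact card_pairs h
  rw [mul_comm]
  exact (bound P).trans (Nat.mul_le_mul_left _ h3)

end Pool.Agent.Results.MP_21b3ca_co.FewPairs
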